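import Pool.Agent.Lib.MP_28303a_al.NT.Kar
import Pool.Agent.Lib.MP_28303a_al.NT.H65.Eul
import Pool.Agent.Lib.MP_28303a_al.NT.H80.Perf
import Pool.Agent.Lib.MP_28303a_al.NK.K0Api

/-! # Generation of `K₀` -/

set_option autoImplicit false
set_option linter.unusedSectionVars false
set_option linter.unusedVariables false

namespace Pool.Agent.NegK.NT.H91

universe u

open CategoryTheory Limits Pretriangulated Idempotents

section

variable {k : Type u} [Ring k] {Γ : Type u} [Group Γ] {B B' : Type u} [MulAction Γ B]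
  [MulAction Γ B'] {P : Pre Γ B} {Q : Pre Γ B'}

/-- Change of the locations on homotopy categories. -/
noncomputable abbrev kpK (k : Type u) [Ring k] (m : Loc.Mono P Q) : KKL k P ⥤ KKL k Q :=
  (kp m).mapHomotopyCategory (ComplexShape.up ℤ)

/-- The functors `tk` commute with the change of the locations. -/
noncomputable def pushTk (k : Type u) [Ring k] (m : Loc.Mono P Q) :
    Loc.push (k := k) m ⋙ toKaroubi (Loc k Q) ≅ toKaroubi (Loc k P) ⋙ kp m :=
  NatIso.ofComponents (fun A => Iso.refl _) (by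
    intro A A' f
    exact (Category.comp_id ((toKaroubi (Loc k Q)).map ((Loc.push m).map f))).trans
      (Category.id_comp ((toKaroubi (Loc k Q)).map ((Loc.push m).map f))).symm)

noncomputable def tkSq (k : Type u) [Ring k] (m : Loc.Mono P Q) :
    hk (Loc.push (k := k) m) ⋙ tk k Q ≅ tk k P ⋙ kpK k m :=
  Functor.mapHomotopyCategoryCompIso (pushTk k m) (ComplexShape.up ℤ) ≪≫
    (Functor.mapHomotopyCategoryCompIso (Iso.refl (toKaroubi (Loc k P) ⋙ kp m))
      (ComplexShape.up ℤ)).symm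

theorem clsK_kp (m : Loc.Mono P Q) (X : KL k P) : clsK ((kp m).obj X) = clsK X := rfl

/-- The empty module. -/
def eL (k : Type u) [Ring k] (P : Pre Γ B) : Loc k P := ⟨PEmpty, isEmptyElim⟩

theorem isZero_eK (k : Type u) [Ring k] (P : Pre Γ B) :
    IsZero ((toKaroubi (Loc k P)).obj (eL k P)) :=
  (toKaroubi (Loc k P)).map_isZero (@Loc.isZero_of_isEmpty k _ Γ _ B _ P (eL k P)
    (inferInstanceAs (IsEmpty PEmpty)))

theorem clsK_eL (k : Type u) [Ring k] (P : Pre Γ B) (X : KL k P) (h : IsEmpty X.X.ι) :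
    clsK X = 0 := by
  have hf : Finite X.X.ι := inferInstance
  rw [H65.clsK_fin X]
  have h0 : Nat.card X.X.ι = 0 := Nat.card_of_isEmpty
  have h1 : ∀ (p : Idem (MonoidAlgebra k Γ)), p.n = 0 → K0.cls p = 0 := by
    rintro ⟨n, e, he⟩ hn
    change n = 0 at hn
    subst hn
    rw [← mcls_self, ← mcls_zero (A := MonoidAlgebra k Γ) (ι := Fin 0)]
    exact mcls_congr _ (Subsingleton.elim _ _)
  exact h1 _ h0

/-- The located projective module of an idempotent matrix. -/
noncomputable def Yp (p : Idem (MonoidAlgebra k Γ)) (U : B) (hP : ∀ x y : B, P.le x y) :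
    KL k P where
  X := ⟨ULift.{u} (Fin p.n), fun _ => U⟩
  p := Loc.ofB (A := ⟨ULift.{u} (Fin p.n), fun _ => U⟩) (A' := ⟨ULift.{u} (Fin p.n), fun _ => U⟩)
    (fun i => Finsupp.equivFunOnFinite.symm fun j => p.e i.down j.down) fun i j g hg => hP _ _
  idem := by
    refine Loc.ext_basis fun i => ?_
    refine Finsupp.ext fun j => ?_
    rw [Loc.lin_comp, LinearMap.comp_apply, Loc.map_apply, Finsupp.sum_fintype _ _
      (fun _ => zero_mul _)]
    simp only [Loc.lin_ofB (A := ⟨ULift.{u} (Fin p.n), fun _ => U⟩)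
      (A' := ⟨ULift.{u} (Fin p.n), fun _ => U⟩)]
    change ∑ a : ULift.{u} (Fin p.n), p.e i.down a.down * p.e a.down j.down = p.e i.down j.down
    have h1 := congrFun (congrFun p.idem i.down) j.down
    rw [Matrix.mul_apply] at h1
    rw [← h1]
    exact Equiv.sum_comp Equiv.ulift fun a => p.e i.down a * p.e a j.down

theorem clsK_Yp (p : Idem (MonoidAlgebra k Γ)) (U : B) (hP : ∀ x y : B, P.le x y) :
    clsK (Yp p U hP) = K0.cls p := by
  have hf : Finite (Yp p U hP).X.ι := inferInstanceAs (Finite (ULift.{u} (Fin p.n)))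
  have hc : Finite (ULift.{u} (Fin p.n)) := inferInstance
  rw [H65.clsK_fin (Yp p U hP)]
  let σ : Fin (Nat.card (ULift.{u} (Fin p.n))) ≃ Fin p.n :=
    (Finite.equivFin (ULift.{u} (Fin p.n))).symm.trans Equiv.ulift
  have h1 : H65.M (Yp p U hP).p = p.e.submatrix σ σ := by
    refine Matrix.ext fun i j => ?_
    change (Loc.lin (Yp p U hP).p (Finsupp.single
      ((Finite.equivFin (ULift.{u} (Fin p.n))).symm i) 1))
        ((Finite.equivFin (ULift.{u} (Fin p.n))).symm j) = _
    exact congrArg (fun x : ULift.{u} (Fin p.n) →₀ MonoidAlgebra k Γ =>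
      x ((Finite.equivFin (ULift.{u} (Fin p.n))).symm j))
      (Loc.lin_ofB (A := ⟨ULift.{u} (Fin p.n), fun _ => U⟩)
        (A' := ⟨ULift.{u} (Fin p.n), fun _ => U⟩) (P := P)
        (fun i => Finsupp.equivFunOnFinite.symm fun j => p.e i.down j.down)
        (fun i j g hg => hP _ _) _)
  refine cls_eq_of_equiv ⟨p.e.submatrix σ id, p.e.submatrix id σ, ?_, ?_⟩
  · change p.e.submatrix σ (Equiv.refl _) * p.e.submatrix (Equiv.refl _) σ =
      H65.M (Yp p U hP).p
    rw [Matrix.submatrix_mul_equiv, p.idem, h1]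
  · change p.e.submatrix id σ * p.e.submatrix σ id = p.e
    rw [Matrix.submatrix_mul_equiv, p.idem]
    rfl

/-- The complex with `Y` in degree `0` and empty modules elsewhere. -/
theorem exists_sgl (Y : KL k P) (hY : Finite Y.X.ι) :
    ∃ E : CochainComplex (KL k P) ℤ, FinK E ∧ chi E = clsK Y ∧
      Nonempty ((HomologicalComplex.single (KL k P) (ComplexShape.up ℤ) 0).obj Y ≅ E) := by
  classical
  let C := (HomologicalComplex.single (KL k P) (ComplexShape.up ℤ) 0).obj Y
  let Z : KL k P := (toKaroubi (Loc k P)).obj (eL k P)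
  let A : ℤ → KL k P := fun n => if n = 0 then Y else Z
  have h0 : A 0 = Y := if_pos rfl
  have h1 : ∀ n, n ≠ 0 → A n = Z := fun n hn => if_neg hn
  have e : ∀ n, Nonempty (C.X n ≅ A n) := by
    intro n
    by_cases hn : n = 0
    · subst hn
      rw [h0]
      exact ⟨HomologicalComplex.singleObjXSelf (ComplexShape.up ℤ) 0 Y⟩
    · rw [h1 n hn]
      exact ⟨(HomologicalComplex.isZero_single_obj_X (ComplexShape.up ℤ) 0 Y n hn).iso
        (isZero_eK k P)⟩
  have e := fun n => (e n).some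
  refine ⟨trc C A e, ⟨fun n => ?_, 0, 0, fun n hn => ?_⟩, ?_, ⟨trcIso C A e⟩⟩
  · change Finite (A n).X.ι
    by_cases hn : n = 0
    · subst hn
      rw [h0]
      exact hY
    · rw [h1 n hn]
      exact inferInstanceAs (Finite PEmpty)
  · have hn' : n ≠ 0 := by
      rcases hn with h | h
      · exact ne_of_lt h
      · exact ne_of_gt h
    change IsZero (A n)
    rw [h1 n hn']
    exact isZero_eK k P
  · unfold chi
    rw [finsum_eq_single _ (0 : ℤ)]
    · change (Int.negOnePow 0 : ℤ) • clsK (A 0) = _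
      rw [h0, Int.negOnePow_zero, Units.val_one, one_smul]
    · intro n hn
      change (Int.negOnePow n : ℤ) • clsK (A n) = _
      rw [h1 n hn, clsK_eL k P Z (inferInstanceAs (IsEmpty PEmpty)), smul_zero]

end

/-- KGEN. -/
theorem kgen {Γ : Type u} [Group Γ] (T : Sys Γ)
    (hIC : ∀ (k : Type u) [Ring k], IC k (T.P Finset.univ))
    (hE : ∀ (k : Type u) [Ring k], EUL k (T.P ∅)) (hS : ∀ (k : Type u) [Ring k], SPL k (T.P ∅))
    (hG : T.GRB) : T.KGEN := by
  intro hs k _ hL
  rw [eq_top_iff]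
  intro z _
  have key : ∀ p : Idem (MonoidAlgebra k Γ), K0.cls p ∈ T.GEN k := by
    intro p
    have hP : ∀ x y : T.Box, (T.P ∅).le x y := fun x y i hi => absurd hi (Finset.notMem_empty i)
    let U : T.Box := fun i => Classical.arbitrary _
    let Y : KL k (T.P ∅) := Yp p U hP
    have hY : Finite Y.X.ι := inferInstanceAs (Finite (ULift.{u} (Fin p.n)))
    obtain ⟨X, hX, ⟨eX⟩⟩ := hS k Y hY
    obtain ⟨D, hD, ⟨eD⟩⟩ := hL X hX
    obtain ⟨E, hE1, ⟨eE⟩⟩ := hIC k D hD
    obtain ⟨E', hE', hchi, ⟨e'⟩⟩ := exists_sgl Y hY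
    let m := T.fg (Finset.empty_subset (Finset.univ : Finset (Fin T.m)))
    let KE : CochainComplex (KL k (T.P ∅)) ℤ :=
      ((kp (k := k) m).mapHomologicalComplex (ComplexShape.up ℤ)).obj E
    have hKE : FinK KE := by
      refine ⟨fun n => hE1.fin n, ?_⟩
      obtain ⟨a, b, hab⟩ := hE1.bdd
      exact ⟨a, b, fun n hn => (kp (k := k) m).map_isZero (hab n hn)⟩
    have e1 : (HomotopyCategory.quotient (KL k (T.P ∅)) (ComplexShape.up ℤ)).obj KE ≅
        (HomotopyCategory.quotient (KL k (T.P ∅)) (ComplexShape.up ℤ)).obj E' := by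
      refine ((kpK k m).mapIso eE.symm) ≪≫ ?_
      refine (tkSq k m).symm.app D ≪≫ ?_
      refine (tk k (T.P ∅)).mapIso eD ≪≫ ?_
      exact eX ≪≫ (HomotopyCategory.quotient _ _).mapIso e'
    have h1 := hE k KE E' hKE hE' ⟨e1⟩
    rw [← clsK_Yp p U hP, ← hchi, ← h1]
    unfold chi
    refine finsum_induction (fun x => x ∈ T.GEN k) (zero_mem _) (fun x y hx hy => add_mem hx hy)
      fun n => ?_
    refine zsmul_mem ?_ _
    exact hG hs k (E.X n)
  obtain ⟨p, q, rfl⟩ := exists_sub z
  exact sub_mem (key p) (key q)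

end Pool.Agent.NegK.NT.H91
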