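import Pool.Agent.Lib.MP_28303a_al.NT.A.Extab

/-! # The homology of perfect complexes is good and bounded -/

set_option autoImplicit false
set_option linter.unusedSectionVars false
set_option linter.unusedVariables false

namespace Pool.Agent.NegK.NT.H91

universe u

open CategoryTheory Limits Pretriangulated

theorem haa : HaaStatement.{u} := by
  intro k _ Γ _ B _ P AA hA X hX n
  obtain ⟨E, hE, ⟨ρ⟩⟩ := hX
  let C : CochainComplex (Fn k P) ℤ := (Loc.ev.mapHomologicalComplex (ComplexShape.up ℤ)).obj E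
  have hC : ∀ n, AA (C.X n) := fun n => hA.fin (E.X n) (hE.fin n)
  have hcy : AA (C.cycles n) := by
    have h1 := hA.ker _ _ (C.d n (n + 1)) (hC n) (hC (n + 1))
    exact hA.iso _ _ ⟨IsLimit.conePointUniqueUpToIso (kernelIsKernel (C.d n (n + 1)))
      (C.cyclesIsKernel n (n + 1) (by simp))⟩ h1
  have hho : AA (C.homology n) := by
    have h1 := hA.coker _ _ (C.toCycles (n - 1) n) (hC (n - 1)) hcy
    exact hA.iso _ _ ⟨IsColimit.coconePointUniqueUpToIso (cokernelIsCokernel (C.toCycles (n - 1) n))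
      (C.homologyIsCokernel (n - 1) n (by simp))⟩ h1
  have hq' : AA ((hq k P n).obj (qo E)) := hA.iso _ _ ⟨((hqI k P n).app E).symm⟩ hho
  let ρ' := ρ.map (hq k P n)
  have h2 := hA.image (ρ'.r ≫ ρ'.i) hq' hq'
  have : StrongEpi ρ'.r := by
    have : IsSplitEpi ρ'.r := ⟨⟨⟨ρ'.i, ρ'.retract⟩⟩⟩
    exact strongEpi_of_epi _
  have : Mono ρ'.i := by
    have : IsSplitMono ρ'.i := ⟨⟨⟨ρ'.r, ρ'.retract⟩⟩⟩
    infer_instance
  exact hA.iso _ _ ⟨(image.isoStrongEpiMono ρ'.r ρ'.i rfl).symm⟩ h2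

theorem bdd : BddStatement.{u} := by
  intro k _ Γ _ B _ P X hX
  obtain ⟨E, hE, ⟨ρ⟩⟩ := hX
  obtain ⟨a, b, hab⟩ := hE.bdd
  refine ⟨a, b, fun n hn => ?_⟩
  let C : CochainComplex (Fn k P) ℤ := (Loc.ev.mapHomologicalComplex (ComplexShape.up ℤ)).obj E
  have h1 : IsEmpty (E.X n).ι := hab n hn
  have h2 : IsZero (C.X n) := Loc.ev.map_isZero (Loc.isZero_of_isEmpty (E.X n))
  have h3 : IsZero (C.homology n) := by
    have h4 : IsZero (C.cycles n) := by
      rw [IsZero.iff_id_eq_zero, ← cancel_mono (C.iCycles n)]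
      exact h2.eq_of_tgt _ _
    rw [IsZero.iff_id_eq_zero, ← cancel_epi (C.homologyπ n)]
    exact h4.eq_of_src _ _
  have h5 : IsZero ((hq k P n).obj (qo E)) := h3.of_iso ((hqI k P n).app E)
  have h6 := ρ.map (hq k P n)
  rw [IsZero.iff_id_eq_zero, ← h6.retract, h5.eq_of_tgt h6.i 0, zero_comp]

end Pool.Agent.NegK.NT.H91
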